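import Pool.Agent.Helper236.F4

/-!
# MP_f02e69_co: classes that are denser than a projective geometry

We exclude the direct sum of two four-point lines. It is representable over every field with at
least three elements and not binary. The matroids of the vectors `(x, y)` with `x` in the field
with four elements and `y` a binary vector have no such minor.
-/

set_option autoImplicit false

namespace Pool.Agent.Results.MP_f02e69_co.Projections

open Set Module Submodule Pool.Agent.Helper236

/-- `M` is in `U(q)`: no minor of `M` is isomorphic to the uniform matroid `U_{2,q+2}`, that is, no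
minor of `M` has exactly `q + 2` elements and the sets with at most two elements as independent
sets. -/
def InU {α : Type} (q : ℕ) (M : Matroid α) : Prop :=
  ∀ N : Matroid α, N.IsMinor M →
    ¬ (N.E.encard = q + 2 ∧ ∀ I ⊆ N.E, (N.Indep I ↔ I.encard ≤ 2))

/-- `M` is in `L(r)`: it is representable over a field with `r` elements. -/
def InL {α : Type} (r : ℕ) (M : Matroid α) : Prop :=
  ∃ (F : Type) (_ : Field F), Nat.card F = r ∧ Representable F M

/-- `M` is in `EX(S) ∩ U(q)`: it is a finite matroid in `U(q)` and no minor of `M` is isomorphic to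
a member of `S`. -/
def InClass (S : Set (Σ β : Type, Matroid β)) (q : ℕ) {α : Type} (M : Matroid α) : Prop :=
  M.Finite ∧ InU q M ∧ ∀ A ∈ S, ∀ N : Matroid α, N.IsMinor M → ¬ Iso N A.2

/-- the number of points (rank-one flats) of `M` -/
noncomputable def numPoints {α : Type} (M : Matroid α) : ℕ∞ :=
  {X : Set α | M.IsFlat X ∧ M.eRk X = 1}.encard

/-- the size function `h(EX(S) ∩ U(q); n)` -/
noncomputable def size (S : Set (Σ β : Type, Matroid β)) (q n : ℕ) : ℕ∞ :=
  ⨆ (α : Type) (M : Matroid α) (_ : InClass S q M ∧ M.eRank = n), numPoints M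

/-! ### Representable matroids -/

section Rep

variable {α F W : Type} [Field F] [AddCommGroup W] [Module F W] {M : Matroid α} {v : α → W}

theorem dep_mem_span {w : α → W} {a b c : α} (hab : LinearIndepOn F w {a, b})
    (habc : ¬ LinearIndepOn F w {c, a, b}) : w c ∈ span F {w a, w b} := by
  by_contra hnot
  apply habc
  rw [← image_pair] at hnot
  exact hab.insert hnot

/-- In the span of two vectors there are at most `|F| + 1` pairwise independent vectors. -/
theorem card_line [Finite F] {w : α → W} {E : Set α} {a b : α} (ha : a ∈ E) (h2 : ∀ x ∈ E, ∀ y ∈ E, LinearIndepOn F w {x, y})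
    (h3 : ∀ c ∈ E, w c ∈ span F {w a, w b}) : E.encard ≤ Nat.card F + 1 := by
  classical
  have key : ∀ c ∈ E \ {a}, ∃ s : F, ∃ t : F, t ≠ 0 ∧ w c = t • (s • w a + w b) := by
    rintro c ⟨hc, hca⟩
    have hca' : a ≠ c := fun h => hca h.symm
    obtain ⟨x, y, hxy⟩ := mem_span_pair.1 (h3 c hc)
    have ha0 : w a ≠ 0 := by
      have := h2 a ha a ha
      simpa using this
    have hy : y ≠ 0 := by
      rintro rfl
      rw [zero_smul, add_zero] at hxy
      have := h2 a ha c hc
      rw [linearIndepOn_pair_iff _ hca' ha0] at this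
      exact this x hxy
    refine ⟨y⁻¹ * x, y, hy, ?_⟩
    rw [smul_add, smul_smul, mul_inv_cancel_left₀ hy, hxy]
  choose! s t ht hst using key
  have hinj : InjOn s (E \ {a}) := by
    intro c hc d hd hcd
    by_contra hne
    have hd0 : w c ≠ 0 := by
      have := h2 c hc.1 c hc.1
      simpa using this
    have h4 := h2 c hc.1 d hd.1
    rw [linearIndepOn_pair_iff _ hne hd0] at h4
    apply h4 (t d * (t c)⁻¹)
    rw [hst c hc, hst d hd, hcd, smul_smul, mul_assoc, inv_mul_cancel₀ (ht c hc), mul_one]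
  have h5 : (E \ {a}).encard ≤ (univ : Set F).encard := by
    rw [← hinj.encard_image]
    exact encard_le_encard (subset_univ _)
  have h6 : E.encard = (E \ {a}).encard + 1 := by
    rw [encard_sdiff_singleton_add_one ha]
  rw [h6]
  have h7 : (univ : Set F).encard = (Nat.card F : ℕ∞) := by
    rw [encard_univ]
    exact ENat.card_eq_coe_natCard F
  rw [h7] at h5
  gcongr

theorem inU_of_rep [Finite F] (h : Rep F M v) {q : ℕ} (hq : Nat.card F ≤ q) : InU q M := by
  intro N hN hNU
  obtain ⟨C, D, hC, hD, hCD, rfl⟩ := hN.exists_eq_contract_delete_disjoint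
  obtain ⟨hcard, hU⟩ := hNU
  set N := (M.contract C).delete D
  have hrep : Rep F N _ := h.minor C D hC
  obtain ⟨a, ha, b, hb, hab⟩ : ∃ a ∈ N.E, ∃ b ∈ N.E, a ≠ b := by
    have h1 : 1 < N.E.encard := by
      rw [hcard]
      have : (1 : ℕ∞) < ((q + 2 : ℕ) : ℕ∞) := by exact_mod_cast (by omega : 1 < q + 2)
      simpa using this
    rw [one_lt_encard_iff] at h1
    obtain ⟨a, b, ha, hb, hab⟩ := h1
    exact ⟨a, ha, b, hb, hab⟩
  have h2 : ∀ x ∈ N.E, ∀ y ∈ N.E, LinearIndepOn F ((span F (v '' C)).mkQ ∘ v) {x, y} := by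
    intro x hx y hy
    have hsub : ({x, y} : Set α) ⊆ N.E := by
      rintro z (rfl | rfl) <;> assumption
    rw [← hrep _ hsub, hU _ hsub]
    refine (encard_insert_le _ _).trans ?_
    rw [encard_singleton]
    exact le_of_eq one_add_one_eq_two
  have h3 : ∀ c ∈ N.E, ((span F (v '' C)).mkQ ∘ v) c ∈ span F {((span F (v '' C)).mkQ ∘ v) a,
      ((span F (v '' C)).mkQ ∘ v) b} := by
    intro c hc
    by_cases hca : c = a
    · rw [hca]
      exact subset_span (by simp)
    by_cases hcb : c = b
    · rw [hcb]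
      exact subset_span (by simp)
    apply dep_mem_span (h2 a ha b hb)
    have hsub : ({c, a, b} : Set α) ⊆ N.E := by
      rintro z (rfl | rfl | rfl) <;> assumption
    rw [← hrep _ hsub, hU _ hsub]
    rw [Set.encard_insert_of_notMem (by simp [hca, hcb]), encard_pair hab]
    decide
  have h4 := card_line ha h2 h3
  rw [hcard] at h4
  have h5 : ((q + 2 : ℕ) : ℕ∞) ≤ ((Nat.card F + 1 : ℕ) : ℕ∞) := by
    simpa using h4
  have h6 : q + 2 ≤ Nat.card F + 1 := by exact_mod_cast h5
  omega

end Rep

/-! ### The direct sum of two four-point lines -/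

/-- The independent sets of the direct sum of two four-point lines. -/
def TIndep (I : Set (Fin 2 × Fin 4)) : Prop := ∀ i, {p ∈ I | p.1 = i}.ncard ≤ 2

theorem ncard_eq_sum (I : Set (Fin 2 × Fin 4)) :
    I.ncard = {p ∈ I | p.1 = 0}.ncard + {p ∈ I | p.1 = 1}.ncard := by
  rw [← ncard_union_eq _ (toFinite _) (toFinite _)]
  · congr 1
    ext p
    have h2 : p.1 = 0 ∨ p.1 = 1 := by
      generalize p.1 = j
      revert j
      decide
    simp only [mem_union, mem_ofPred_eq]
    tauto
  · rw [Set.disjoint_left]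
    rintro p ⟨_, h0⟩ ⟨_, h1⟩
    rw [h0] at h1
    exact absurd h1 (by decide)

/-- The direct sum of two four-point lines. -/
def T : Matroid (Fin 2 × Fin 4) :=
  (IndepMatroid.ofFinite (E := univ) (toFinite _) TIndep
    (fun i => by simp)
    (fun I J hJ hIJ i => by
      have hsub : {p ∈ I | p.1 = i} ⊆ {p ∈ J | p.1 = i} := fun p hp => ⟨hIJ hp.1, hp.2⟩
      exact (ncard_le_ncard hsub (toFinite _)).trans (hJ i))
    (by
      intro I J hI hJ hlt
      obtain ⟨i, hi⟩ : ∃ i : Fin 2, {p ∈ I | p.1 = i}.ncard < {p ∈ J | p.1 = i}.ncard := by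
        by_contra hcon
        push Not at hcon
        rw [ncard_eq_sum I, ncard_eq_sum J] at hlt
        have h0 := hcon 0
        have h1 := hcon 1
        omega
      obtain ⟨e, heJ, heI⟩ := exists_mem_notMem_of_ncard_lt_ncard hi (toFinite _)
      have heI' : e ∉ I := fun h => heI ⟨h, heJ.2⟩
      refine ⟨e, heJ.1, heI', ?_⟩
      intro j
      by_cases hj : j = i
      · subst hj
        have hsub : {p ∈ insert e I | p.1 = j} ⊆ insert e {p ∈ I | p.1 = j} := by
          rintro p ⟨rfl | hp, hpj⟩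
          · exact mem_insert _ _
          · exact mem_insert_of_mem _ ⟨hp, hpj⟩
        have h1 := ncard_le_ncard hsub (toFinite _)
        have h2 := ncard_insert_le e {p ∈ I | p.1 = j}
        have h3 := hJ j
        omega
      · have hsub : {p ∈ insert e I | p.1 = j} ⊆ {p ∈ I | p.1 = j} := by
          rintro p ⟨rfl | hp, hpj⟩
          · exact absurd (hpj.symm.trans heJ.2) hj
          · exact ⟨hp, hpj⟩
        exact (ncard_le_ncard hsub (toFinite _)).trans (hI j))
    (fun _ _ => subset_univ _)).matroid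

theorem T_E : T.E = univ := rfl

theorem T_indep {I : Set (Fin 2 × Fin 4)} : T.Indep I ↔ ∀ i, {p ∈ I | p.1 = i}.ncard ≤ 2 := Iff.rfl

section TRep

variable {F : Type} [Field F] {l : F}

/-- four points on a line -/
def fourPt (l : F) : Fin 4 → (Fin 2 → F) := ![![1, 0], ![0, 1], ![1, 1], ![1, l]]

theorem fourPt_det (h0 : l ≠ 0) (h1 : l ≠ 1) {i j : Fin 4} (hij : i ≠ j) :
    fourPt l i 0 * fourPt l j 1 - fourPt l i 1 * fourPt l j 0 ≠ 0 := by
  have h1' : l - 1 ≠ 0 := sub_ne_zero.2 h1
  have h1'' : 1 - l ≠ 0 := sub_ne_zero.2 (Ne.symm h1)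
  fin_cases i <;> fin_cases j <;> simp [fourPt, h0, h1', h1''] at hij ⊢

theorem fourPt_pair (h0 : l ≠ 0) (h1 : l ≠ 1) {i j : Fin 4} (hij : i ≠ j) {a b : F}
    (h : a • fourPt l i + b • fourPt l j = 0) : a = 0 ∧ b = 0 := by
  have e0 := congrFun h 0
  have e1 := congrFun h 1
  simp only [Pi.add_apply, Pi.smul_apply, smul_eq_mul, Pi.zero_apply] at e0 e1
  have hD := fourPt_det h0 h1 hij
  constructor
  · have : a * (fourPt l i 0 * fourPt l j 1 - fourPt l i 1 * fourPt l j 0) = 0 := by
      linear_combination fourPt l j 1 * e0 - fourPt l j 0 * e1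
    exact (mul_eq_zero.1 this).resolve_right hD
  · have : b * (fourPt l i 0 * fourPt l j 1 - fourPt l i 1 * fourPt l j 0) = 0 := by
      linear_combination fourPt l i 0 * e1 - fourPt l i 1 * e0
    exact (mul_eq_zero.1 this).resolve_right hD

theorem fourPt_ne_zero (i : Fin 4) : fourPt l i ≠ 0 := by
  intro h
  have e0 := congrFun h 0
  have e1 := congrFun h 1
  fin_cases i <;> simp [fourPt] at e0 e1

/-- A sum over at most two elements. -/
theorem fourPt_sum (h0 : l ≠ 0) (h1 : l ≠ 1) (t : Finset (Fin 4)) (ht : t.card ≤ 2)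
    (g : Fin 4 → F) (h : ∑ j ∈ t, g j • fourPt l j = 0) : ∀ j ∈ t, g j = 0 := by
  classical
  rcases Nat.lt_or_ge t.card 2 with h2 | h2
  · rcases Nat.lt_or_ge t.card 1 with h3 | h3
    · have : t = ∅ := Finset.card_eq_zero.1 (by omega)
      subst this
      simp
    · obtain ⟨a, rfl⟩ := Finset.card_eq_one.1 (by omega : t.card = 1)
      rw [Finset.sum_singleton] at h
      intro j hj
      rw [Finset.mem_singleton] at hj
      subst hj
      exact (smul_eq_zero.1 h).resolve_right (fourPt_ne_zero j)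
  · obtain ⟨a, b, hab, rfl⟩ := Finset.card_eq_two.1 (by omega : t.card = 2)
    rw [Finset.sum_pair hab] at h
    obtain ⟨ha, hb⟩ := fourPt_pair h0 h1 hab h
    intro j hj
    rw [Finset.mem_insert, Finset.mem_singleton] at hj
    rcases hj with rfl | rfl <;> assumption

/-- the vectors representing `T` -/
def tvec (l : F) (p : Fin 2 × Fin 4) : Fin 2 → (Fin 2 → F) := Pi.single p.1 (fourPt l p.2)

theorem T_rep (h0 : l ≠ 0) (h1 : l ≠ 1) : Rep F T (tvec l) := by
  classical
  intro I _
  rw [T_indep]
  constructor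
  · intro hI
    rw [linearIndepOn_iff']
    intro s g hs hsum p hp
    have h2 := congrFun hsum p.1
    rw [Finset.sum_apply, Pi.zero_apply] at h2
    have h3 : ∑ q ∈ s.filter (fun q => q.1 = p.1), g q • fourPt l q.2 = 0 := by
      rw [← h2, Finset.sum_filter]
      refine Finset.sum_congr rfl fun q _ => ?_
      by_cases hq : q.1 = p.1
      · rw [if_pos hq, Pi.smul_apply, tvec, ← hq, Pi.single_eq_same]
      · rw [if_neg hq, Pi.smul_apply, tvec, Pi.single_eq_of_ne (Ne.symm hq), smul_zero]
    have hinj : InjOn Prod.snd ((s.filter (fun q => q.1 = p.1) : Finset (Fin 2 × Fin 4)) :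
        Set (Fin 2 × Fin 4)) := by
      intro a ha b hb hab
      rw [Finset.mem_coe, Finset.mem_filter] at ha hb
      exact Prod.ext (ha.2.trans hb.2.symm) hab
    have h4 := fourPt_sum h0 h1 ((s.filter (fun q => q.1 = p.1)).image Prod.snd) ?_
      (fun j => g (p.1, j)) ?_ p.2 ?_
    · exact h4
    · rw [Finset.card_image_of_injOn hinj]
      have h5 := hI p.1
      rw [← Set.ncard_coe_finset]
      refine (ncard_le_ncard ?_ (toFinite _)).trans h5
      intro q hq
      rw [Finset.mem_coe, Finset.mem_filter] at hq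
      exact ⟨hs hq.1, hq.2⟩
    · rw [Finset.sum_image hinj, ← h3]
      refine Finset.sum_congr rfl fun q hq => ?_
      rw [Finset.mem_filter] at hq
      rw [← hq.2]
    · rw [Finset.mem_image]
      exact ⟨p, Finset.mem_filter.2 ⟨hp, rfl⟩, rfl⟩
  · intro hI i
    have h2 : LinearIndepOn F (tvec l) {p ∈ I | p.1 = i} := hI.mono fun p hp => hp.1
    have h3 : finrank F (span F (tvec l '' {p ∈ I | p.1 = i})) = {p ∈ I | p.1 = i}.ncard :=
      finrank_span_of_linearIndepOn h2 (toFinite _)
    rw [← h3]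
    have h4 : span F (tvec l '' {p ∈ I | p.1 = i}) ≤
        LinearMap.range (LinearMap.single F (fun _ : Fin 2 => (Fin 2 → F)) i) := by
      rw [span_le]
      rintro _ ⟨p, hp, rfl⟩
      refine ⟨fourPt l p.2, ?_⟩
      rw [← hp.2]
      rfl
    refine (Submodule.finrank_mono h4).trans ?_
    refine (LinearMap.finrank_range_le _).trans ?_
    rw [Module.finrank_fin_fun]

theorem representable_of_rep {α W : Type} [AddCommGroup W] [Module F W] [FiniteDimensional F W]
    {M : Matroid α} {v : α → W} (h : Rep F M v) : Representable F M := by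
  let e : W ≃ₗ[F] (Fin (finrank F W) → F) :=
    LinearEquiv.ofFinrankEq _ _ (by rw [Module.finrank_fin_fun])
  exact ⟨finrank F W, e ∘ v, h.comp_injective e.toLinearMap e.injective⟩

end TRep

theorem T_inL {r : ℕ} (hr : IsPrimePow r) (h3 : 3 ≤ r) : InL r T := by
  classical
  obtain ⟨p, k, hp, hk, rfl⟩ := (isPrimePow_nat_iff r).1 hr
  have : Fact p.Prime := ⟨hp⟩
  have hcard : Nat.card (GaloisField p k) = p ^ k := GaloisField.card p k hk.ne'
  refine ⟨GaloisField p k, inferInstance, hcard, ?_⟩
  obtain ⟨l, hl⟩ : ∃ l : GaloisField p k, l ∉ ({0, 1} : Set (GaloisField p k)) := by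
    by_contra hcon
    push Not at hcon
    have h1 : (univ : Set (GaloisField p k)) ⊆ {0, 1} := fun x _ => hcon x
    have h2 := ncard_le_ncard h1 (toFinite _)
    rw [ncard_univ, hcard] at h2
    have h4 := ncard_insert_le (0 : GaloisField p k) {1}
    rw [ncard_singleton] at h4
    omega
  rw [mem_insert_iff, mem_singleton_iff, not_or] at hl
  exact representable_of_rep (T_rep hl.1 hl.2)

/-- A binary matroid has no four-point line. -/
theorem T_not_binary : ¬ InL 2 T := by
  rintro ⟨F, _, hF, n, v, hv⟩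
  have : Finite F := Nat.finite_of_card_ne_zero (by omega)
  have hrep : Rep F T v := hv
  have h2 : ∀ i j : Fin 4, T.Indep {((0 : Fin 2), i), (0, j)} := by
    intro i j
    rw [T_indep]
    intro k
    refine (ncard_le_ncard (fun p hp => hp.1) (toFinite _)).trans ?_
    refine (ncard_insert_le _ _).trans ?_
    rw [ncard_singleton]
  have h3 : ∀ c : Fin 4, v (0, c) ∈ span F {v (0, 0), v (0, 1)} := by
    intro c
    by_cases hc0 : c = 0
    · rw [hc0]
      exact subset_span (by simp)
    by_cases hc1 : c = 1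
    · rw [hc1]
      exact subset_span (by simp)
    apply dep_mem_span ((hrep _ (subset_univ _)).1 (h2 0 1))
    rw [← hrep _ (subset_univ _), T_indep]
    push Not
    refine ⟨0, ?_⟩
    have h4 : {p ∈ ({((0 : Fin 2), c), (0, 0), (0, 1)} : Set (Fin 2 × Fin 4)) | p.1 = 0} =
        {((0 : Fin 2), c), (0, 0), (0, 1)} := by
      ext p
      constructor
      · exact fun hp => hp.1
      · intro hp
        refine ⟨hp, ?_⟩
        rcases hp with rfl | rfl | rfl <;> rfl
    rw [h4, ncard_insert_of_notMem, ncard_pair]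
    · norm_num
    · simp
    · simp [hc0, hc1]
  have h5 := card_line (F := F) (w := v) (E := range fun i : Fin 4 => ((0 : Fin 2), i))
    (a := (0, 0)) (b := (0, 1)) ⟨0, rfl⟩ ?_ ?_
  · rw [hF] at h5
    have h6 : (range fun i : Fin 4 => ((0 : Fin 2), i)).encard = 4 := by
      rw [← image_univ, Function.Injective.encard_image]
      · simp
      · intro i j hij
        exact (Prod.ext_iff.1 hij).2
    rw [h6] at h5
    exact absurd h5 (by decide)
  · rintro _ ⟨i, rfl⟩ _ ⟨j, rfl⟩
    exact (hrep _ (subset_univ _)).1 (h2 i j)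
  · rintro _ ⟨i, rfl⟩
    exact h3 i

theorem T_inU {q : ℕ} (hq : 4 ≤ q) : InU q T := by
  have h20 : (2 : ZMod 3) ≠ 0 := by decide
  have h21 : (2 : ZMod 3) ≠ 1 := by decide
  have : Fact (Nat.Prime 3) := ⟨by norm_num⟩
  have h := T_rep (F := ZMod 3) (l := 2) h20 h21
  exact inU_of_rep h (by rw [Nat.card_zmod]; omega)

/-! ### The dense matroids -/

section Dense

/-- the binary field inside `F4` -/
def ι (b : ZMod 2) : F4 := ⟨b, 0⟩

theorem ι_zero : ι 0 = 0 := rfl

theorem ι_sq : ∀ b, ι b * ι b = ι b := by decide +kernel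

theorem ι_ne_zero : ∀ b, b ≠ 0 → ι b ≠ 0 := by decide +kernel

theorem ι_injective : Function.Injective ι := by
  intro a b h
  exact congrArg F4.a h

theorem sq_add (x y : F4) : (x + y) * (x + y) = x * x + y * y := by
  revert x y
  decide +kernel

theorem tau_zero (x : F4) (h : x - x * x = 0) : x = 0 ∨ x = 1 := by
  revert x
  decide +kernel

theorem two_F4 (x : F4) : x + x = 0 := by
  revert x
  decide +kernel

variable (m : ℕ)

/-- the ambient space -/
abbrev V (m : ℕ) : Type := F4 × (Fin m → F4)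

/-- the vector of an element -/
def vec (p : F4 × (Fin m → ZMod 2)) : V m := (p.1, fun i => ι (p.2 i))

/-- the ground set -/
def ground : Set (F4 × (Fin m → ZMod 2)) := {p | p.2 ≠ 0} ∪ {(1, 0)}

/-- the matroid -/
noncomputable def G : Matroid (F4 × (Fin m → ZMod 2)) :=
  linMatroid F4 (vec m) (ground m) (toFinite _)

theorem G_rep : Rep F4 (G m) (vec m) := linMatroid_rep _ _ _

instance G_finite : (G m).Finite := ⟨toFinite _⟩

/-- the coordinatewise square -/
def S (x : V m) : V m := (x.1 * x.1, fun i => x.2 i * x.2 i)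

/-- the special point -/
def e0 : V m := (1, 0)

theorem S_add (x y : V m) : S m (x + y) = S m x + S m y := by
  refine Prod.ext (sq_add _ _) ?_
  ext1 i
  exact sq_add _ _

theorem S_smul (c : F4) (x : V m) : S m (c • x) = (c * c) • S m x := by
  refine Prod.ext ?_ ?_
  · change (c * x.1) * (c * x.1) = (c * c) * (x.1 * x.1)
    ring
  · ext1 i
    change (c * x.2 i) * (c * x.2 i) = (c * c) * (x.2 i * x.2 i)
    ring

theorem S_zero : S m 0 = 0 := by
  refine Prod.ext (mul_zero _) ?_
  ext1 i
  exact mul_zero _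

theorem S_sub (x y : V m) : S m (x - y) = S m x - S m y := by
  rw [eq_sub_iff_add_eq, ← S_add, sub_add_cancel]

theorem S_vec (p : F4 × (Fin m → ZMod 2)) :
    S m (vec m p) = vec m p + (p.1 + p.1 * p.1) • e0 m := by
  refine Prod.ext ?_ ?_
  · change p.1 * p.1 = p.1 + (p.1 + p.1 * p.1) * 1
    rw [mul_one, ← add_assoc, two_F4, zero_add]
  · ext1 i
    change ι (p.2 i) * ι (p.2 i) = ι (p.2 i) + (p.1 + p.1 * p.1) * 0
    rw [mul_zero, add_zero, ι_sq]

theorem S_vec_sub (p : F4 × (Fin m → ZMod 2)) :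
    ∃ c : F4, S m (vec m p) = vec m p + c • e0 m := ⟨_, S_vec m p⟩

/-- the square of an element of the span of some elements -/
theorem S_mem (C : Set (F4 × (Fin m → ZMod 2))) {x : V m} (hx : x ∈ span F4 (vec m '' C)) :
    ∃ c : F4, ∃ y ∈ span F4 (vec m '' C), S m x = y + c • e0 m := by
  induction hx using Submodule.span_induction with
  | mem x hx =>
    obtain ⟨p, hp, rfl⟩ := hx
    exact ⟨_, vec m p, subset_span (mem_image_of_mem _ hp), S_vec m p⟩
  | zero => exact ⟨0, 0, zero_mem _, by rw [S_zero]; simp⟩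
  | add x y _ _ hx hy =>
    obtain ⟨c, x', hx', hx⟩ := hx
    obtain ⟨d, y', hy', hy⟩ := hy
    refine ⟨c + d, x' + y', add_mem hx' hy', ?_⟩
    rw [S_add, hx, hy, add_smul]
    abel
  | smul a x _ hx =>
    obtain ⟨c, x', hx', hx⟩ := hx
    refine ⟨a * a * c, (a * a) • x', smul_mem _ _ hx', ?_⟩
    rw [S_smul, hx, smul_add, smul_smul]

variable {m}

/-- a linear relation with coefficients not in the binary field produces the special point -/
theorem relation {C : Set (F4 × (Fin m → ZMod 2))} {p q r : F4 × (Fin m → ZMod 2)} {l k : F4}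
    (h : (span F4 (vec m '' C)).mkQ (vec m r) = l • (span F4 (vec m '' C)).mkQ (vec m p) +
      k • (span F4 (vec m '' C)).mkQ (vec m q)) :
    ∃ c : F4, (l - l * l) • (span F4 (vec m '' C)).mkQ (vec m p) +
      (k - k * k) • (span F4 (vec m '' C)).mkQ (vec m q) =
        c • (span F4 (vec m '' C)).mkQ (e0 m) := by
  set K := span F4 (vec m '' C) with hK
  have h1 : vec m r - (l • vec m p + k • vec m q) ∈ K := by
    rw [← Submodule.Quotient.mk_eq_zero, ← Submodule.mkQ_apply, map_sub, h, map_add, map_smul,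
      map_smul, sub_self]
  obtain ⟨c, y, hy, hS⟩ := S_mem m C h1
  obtain ⟨cp, hp⟩ := S_vec_sub m p
  obtain ⟨cq, hq⟩ := S_vec_sub m q
  obtain ⟨cr, hr⟩ := S_vec_sub m r
  rw [S_sub, S_add, S_smul, S_smul, hp, hq, hr] at hS
  have h2 := congrArg K.mkQ hS
  have hy0 : K.mkQ y = 0 := by
    rw [Submodule.mkQ_apply, Submodule.Quotient.mk_eq_zero]
    exact hy
  simp only [map_add, map_sub, map_smul, hy0, h] at h2
  refine ⟨c - cr + l * l * cp + k * k * cq, ?_⟩
  linear_combination (norm := module) h2

/-- four pairwise independent elements on a line of a minor produce the special point -/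
theorem line_special {C : Set (F4 × (Fin m → ZMod 2))} {a : Fin 4 → F4 × (Fin m → ZMod 2)}
    (ha : Function.Injective a)
    (h2 : ∀ i j, LinearIndepOn F4 ((span F4 (vec m '' C)).mkQ ∘ vec m) {a i, a j})
    (h3 : ∀ i, (span F4 (vec m '' C)).mkQ (vec m (a i)) ∈
      span F4 {(span F4 (vec m '' C)).mkQ (vec m (a 0)), (span F4 (vec m '' C)).mkQ (vec m (a 1))}) :
    ∃ s t c : F4, (s ≠ 0 ∨ t ≠ 0) ∧ s • (span F4 (vec m '' C)).mkQ (vec m (a 0)) +
      t • (span F4 (vec m '' C)).mkQ (vec m (a 1)) = c • (span F4 (vec m '' C)).mkQ (e0 m) := by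
  set K := span F4 (vec m '' C) with hK
  have hne : ∀ i, K.mkQ (vec m (a i)) ≠ 0 := by
    intro i
    have := h2 i i
    simpa using this
  have key : ∀ i : Fin 4, i ≠ 0 → i ≠ 1 → ∃ l k : F4, l ≠ 0 ∧ k ≠ 0 ∧
      K.mkQ (vec m (a i)) = l • K.mkQ (vec m (a 0)) + k • K.mkQ (vec m (a 1)) := by
    intro i hi0 hi1
    obtain ⟨l, k, hlk⟩ := mem_span_pair.1 (h3 i)
    refine ⟨l, k, ?_, ?_, hlk.symm⟩
    · rintro rfl
      rw [zero_smul, zero_add] at hlk
      have := h2 1 i
      rw [linearIndepOn_pair_iff _ (fun h => hi1 (ha h).symm) (hne 1)] at this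
      exact this k hlk
    · rintro rfl
      rw [zero_smul, add_zero] at hlk
      have := h2 0 i
      rw [linearIndepOn_pair_iff _ (fun h => hi0 (ha h).symm) (hne 0)] at this
      exact this l hlk
  obtain ⟨l, k, hl, hk, h⟩ := key 2 (by decide) (by decide)
  obtain ⟨l', k', hl', hk', h'⟩ := key 3 (by decide) (by decide)
  obtain ⟨c, hc⟩ := relation h
  obtain ⟨c', hc'⟩ := relation h'
  by_cases h0 : l - l * l = 0 ∧ k - k * k = 0
  · by_cases h0' : l' - l' * l' = 0 ∧ k' - k' * k' = 0
    · exfalso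
      have e1 := (tau_zero l h0.1).resolve_left hl
      have e2 := (tau_zero k h0.2).resolve_left hk
      have e3 := (tau_zero l' h0'.1).resolve_left hl'
      have e4 := (tau_zero k' h0'.2).resolve_left hk'
      rw [e1, e2] at h
      rw [e3, e4] at h'
      have := h2 2 3
      rw [linearIndepOn_pair_iff _ (fun h => absurd (ha h) (by decide)) (hne 2)] at this
      apply this 1
      rw [one_smul]
      exact h.trans h'.symm
    · exact ⟨_, _, c', not_and_or.1 h0', hc'⟩
  · exact ⟨_, _, c, not_and_or.1 h0, hc⟩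

/-- no minor is the direct sum of two four-point lines -/
theorem no_T (N : Matroid (F4 × (Fin m → ZMod 2))) (hN : N.IsMinor (G m)) : ¬ Iso N T := by
  classical
  rintro ⟨e, he⟩
  obtain ⟨C, D, hC, hD, hCD, hNeq⟩ := hN.exists_eq_contract_delete_disjoint
  have hrep : Rep F4 N ((span F4 (vec m '' C)).mkQ ∘ vec m) := by
    rw [hNeq]
    exact (G_rep m).minor C D hC
  set K := span F4 (vec m '' C) with hK
  -- the elements of the two lines
  obtain ⟨el, helinj, hind⟩ : ∃ el : Fin 2 × Fin 4 → F4 × (Fin m → ZMod 2),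
      Function.Injective el ∧
      ∀ I : Set (Fin 2 × Fin 4), LinearIndepOn F4 (K.mkQ ∘ vec m) (el '' I) ↔ T.Indep I := by
    let el : Fin 2 × Fin 4 → F4 × (Fin m → ZMod 2) := fun p => (e.symm ⟨p, mem_univ _⟩ : N.E)
    have hel : ∀ p, el p ∈ N.E := fun p => (e.symm ⟨p, mem_univ _⟩ : N.E).2
    refine ⟨el, ?_, ?_⟩
    · intro p q hpq
      have := e.symm.injective (Subtype.ext hpq)
      exact congrArg Subtype.val this
    · intro I
      rw [← hrep _ (by rintro _ ⟨p, _, rfl⟩; exact hel p)]
      have h1 := he ((fun p : Fin 2 × Fin 4 => e.symm ⟨p, mem_univ _⟩) '' I)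
      have h2 : ((↑) '' ((fun p : Fin 2 × Fin 4 => e.symm ⟨p, mem_univ _⟩) '' I) : Set _) =
          el '' I := by
        rw [image_image]
      have h3 : ((↑) '' (e '' ((fun p : Fin 2 × Fin 4 => e.symm ⟨p, mem_univ _⟩) '' I)) : Set _) =
          I := by
        rw [image_image, image_image]
        simp
      rw [h2] at h1
      refine h1.trans ?_
      exact iff_of_eq (congrArg T.Indep h3)
  have hpair : ∀ k i j, LinearIndepOn F4 (K.mkQ ∘ vec m) {el (k, i), el (k, j)} := by
    intro k i j
    rw [← image_pair, hind, T_indep]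
    intro k'
    refine (ncard_le_ncard (fun p hp => hp.1) (toFinite _)).trans ?_
    refine (ncard_insert_le _ _).trans ?_
    rw [ncard_singleton]
  have hline : ∀ k i, (K.mkQ ∘ vec m) (el (k, i)) ∈
      span F4 {(K.mkQ ∘ vec m) (el (k, 0)), (K.mkQ ∘ vec m) (el (k, 1))} := by
    intro k i
    by_cases hc0 : i = 0
    · rw [hc0]
      exact subset_span (by simp)
    by_cases hc1 : i = 1
    · rw [hc1]
      exact subset_span (by simp)
    apply dep_mem_span (hpair k 0 1)
    have h1 : ({el (k, i), el (k, 0), el (k, 1)} : Set _) =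
        el '' {(k, i), (k, 0), (k, 1)} := by
      rw [image_insert_eq, image_pair]
    rw [h1, hind, T_indep]
    push Not
    refine ⟨k, ?_⟩
    have h4 : {p ∈ ({(k, i), (k, 0), (k, 1)} : Set (Fin 2 × Fin 4)) | p.1 = k} =
        {(k, i), (k, 0), (k, 1)} := by
      ext p
      constructor
      · exact fun hp => hp.1
      · intro hp
        refine ⟨hp, ?_⟩
        rcases hp with rfl | rfl | rfl <;> rfl
    rw [h4, ncard_insert_of_notMem, ncard_pair]
    · norm_num
    · simp
    · simp [hc0, hc1]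
  have hinj : ∀ k, Function.Injective fun i => el (k, i) := fun k i j hij =>
    (Prod.ext_iff.1 (helinj hij)).2
  obtain ⟨s, t, c, hst, hc⟩ := line_special (a := fun i => el (0, i)) (hinj 0) (hpair 0) (hline 0)
  obtain ⟨s', t', c', hst', hc'⟩ :=
    line_special (a := fun i => el (1, i)) (hinj 1) (hpair 1) (hline 1)
  have hfour : LinearIndepOn F4 (K.mkQ ∘ vec m)
      (el '' {((0 : Fin 2), (0 : Fin 4)), (0, 1), (1, 0), (1, 1)}) := by
    rw [hind, T_indep]
    intro k
    have h1 : {p ∈ ({((0 : Fin 2), (0 : Fin 4)), (0, 1), (1, 0), (1, 1)} :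
        Set (Fin 2 × Fin 4)) | p.1 = k} ⊆ {(k, 0), (k, 1)} := by
      rintro p ⟨hp, rfl⟩
      rcases hp with rfl | rfl | rfl | rfl <;> simp
    refine (ncard_le_ncard h1 (toFinite _)).trans ?_
    refine (ncard_insert_le _ _).trans ?_
    rw [ncard_singleton]
  -- the resulting relation
  have hrel : (c' * s) • K.mkQ (vec m (el (0, 0))) + (c' * t) • K.mkQ (vec m (el (0, 1))) -
      (c * s') • K.mkQ (vec m (el (1, 0))) - (c * t') • K.mkQ (vec m (el (1, 1))) = 0 := by
    linear_combination (norm := module) c' • hc - c • hc'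
  have hli : LinearIndependent F4 (fun i : Fin 4 => K.mkQ (vec m (el
      ((![((0 : Fin 2), (0 : Fin 4)), (0, 1), (1, 0), (1, 1)] : Fin 4 → Fin 2 × Fin 4) i)))) := by
    have hmem : ∀ i : Fin 4, (![((0 : Fin 2), (0 : Fin 4)), (0, 1), (1, 0), (1, 1)] :
        Fin 4 → Fin 2 × Fin 4) i ∈
          ({((0 : Fin 2), (0 : Fin 4)), (0, 1), (1, 0), (1, 1)} : Set (Fin 2 × Fin 4)) := by
      intro i
      fin_cases i <;> simp
    have h1 := hfour.linearIndependent
    refine h1.comp (fun i : Fin 4 => ⟨_, mem_image_of_mem el (hmem i)⟩) ?_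
    intro i j hij
    have h3 := Subtype.ext_iff.1 hij
    have h2 := helinj h3
    revert h2
    clear h3 hij
    revert i j
    decide
  rw [Fintype.linearIndependent_iff] at hli
  have h1 := hli ![c' * s, c' * t, - (c * s'), - (c * t')] (by
    rw [Fin.sum_univ_four]
    rw [← hrel]
    simp only [Matrix.cons_val_zero, Matrix.cons_val_one, Matrix.cons_val]
    module)
  have h10 : c' * s = 0 := h1 0
  have h11 : c' * t = 0 := h1 1
  have hc'0 : c' = 0 := by
    rcases hst with hst | hst
    · exact (mul_eq_zero.1 h10).resolve_right hst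
    · exact (mul_eq_zero.1 h11).resolve_right hst
  rw [hc'0, zero_smul] at hc'
  have h2 := hli ![0, 0, s', t'] (by
    rw [Fin.sum_univ_four]
    rw [← hc']
    simp only [Matrix.cons_val_zero, Matrix.cons_val_one, Matrix.cons_val]
    module)
  rcases hst' with h | h
  · exact h (h2 2)
  · exact h (h2 3)

variable (m)

theorem vec_injective : Function.Injective (vec m) := by
  intro p q h
  have h1 : (vec m p).1 = (vec m q).1 := congrArg Prod.fst h
  have h2 : p.2 = q.2 := by
    ext1 i
    exact ι_injective (congrFun (congrArg Prod.snd h) i)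
  exact Prod.ext h1 h2

theorem vec_ne_zero {p : F4 × (Fin m → ZMod 2)} (hp : p ∈ ground m) : vec m p ≠ 0 := by
  rcases hp with hp | hp
  · intro h
    apply hp
    ext1 i
    have h2 : ι (p.2 i) = 0 := congrFun (congrArg Prod.snd h) i
    by_contra h3
    exact ι_ne_zero _ h3 h2
  · rw [mem_singleton_iff] at hp
    subst hp
    intro h
    have h2 : (1 : F4) = 0 := congrArg Prod.fst h
    exact absurd h2 (by decide +kernel)

theorem smul_eq {p q : F4 × (Fin m → ZMod 2)} (hp : p ∈ ground m) (hq : q ∈ ground m) {c : F4}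
    (h : c • vec m p = vec m q) : p = q := by
  have hc0 : c ≠ 0 := by
    rintro rfl
    rw [zero_smul] at h
    exact vec_ne_zero m hq h.symm
  have h1 : c * p.1 = q.1 := congrArg Prod.fst h
  have h2 : ∀ i, c * ι (p.2 i) = ι (q.2 i) := fun i => congrFun (congrArg Prod.snd h) i
  have hbin : ∀ a b : ZMod 2, a ≠ 0 → c * ι a = ι b → c = 1 := by
    have : ∀ (c : F4) (a b : ZMod 2), c ≠ 0 → a ≠ 0 → c * ι a = ι b → c = 1 := by
      decide +kernel
    exact fun a b => this c a b hc0
  rcases hp with hp | hp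
  · obtain ⟨i, hi⟩ : ∃ i, p.2 i ≠ 0 := by
      by_contra hcon
      push Not at hcon
      exact hp (funext hcon)
    have hc := hbin _ _ hi (h2 i)
    rw [hc, one_smul] at h
    exact vec_injective m h
  · rw [mem_singleton_iff] at hp
    subst hp
    have hq2 : q.2 = 0 := by
      ext1 i
      have h3 := h2 i
      have h4 : c * ι (0 : ZMod 2) = 0 := by
        rw [ι_zero, mul_zero]
      have h5 : ι (q.2 i) = 0 := by
        rw [← h3]
        exact h4
      by_contra h6
      exact ι_ne_zero _ h6 h5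
    rcases hq with hq | hq
    · exact absurd hq2 hq
    · rw [mem_singleton_iff] at hq
      exact hq.symm

theorem G_simple : IsSimple (G m) := by
  intro p hp q hq
  rw [G_rep m _ (by rintro x (rfl | rfl) <;> assumption)]
  by_cases hpq : p = q
  · subst hpq
    simpa using vec_ne_zero m hp
  · rw [linearIndepOn_pair_iff _ hpq (vec_ne_zero m hp)]
    intro c hc
    exact hpq (smul_eq m hp hq hc)

theorem encard_le_numPoints {α : Type} (M : Matroid α) (hs : IsSimple M) :
    M.E.encard ≤ numPoints M := by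
  have hinj : InjOn (fun e => M.closure {e}) M.E := by
    intro e he f hf hef
    by_contra hne
    have h1 : M.Indep {e, f} := hs e he f hf
    have h2 : f ∈ M.closure {e} := by
      have h3 : M.closure {e} = M.closure {f} := hef
      rw [h3]
      exact M.mem_closure_self f hf
    have h3 : e ∉ M.closure {f} := by
      have := h1.notMem_closure_sdiff_of_mem (mem_insert e {f})
      have h4 : ({e, f} : Set α) \ {e} = {f} := by
        ext x
        simp only [mem_sdiff, mem_insert_iff, mem_singleton_iff]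
        constructor
        · rintro ⟨h | h, h'⟩
          · exact absurd h h'
          · exact h
        · rintro rfl
          exact ⟨Or.inr rfl, Ne.symm hne⟩
      rwa [h4] at this
    apply h3
    have h5 : M.closure {e} = M.closure {f} := hef
    rw [← h5]
    exact M.mem_closure_self e he
  rw [← hinj.encard_image]
  apply encard_le_encard
  rintro _ ⟨e, he, rfl⟩
  refine ⟨M.isFlat_closure _, ?_⟩
  have h1 : M.Indep {e} := by simpa using hs e he e he
  rw [M.eRk_closure_eq, h1.eRk_eq_encard, encard_singleton]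

theorem span_top : span F4 (vec m '' ground m) = ⊤ := by
  classical
  rw [Submodule.eq_top_iff']
  intro x
  have h0 : e0 m ∈ span F4 (vec m '' ground m) := by
    refine subset_span ⟨(1, 0), Or.inr rfl, ?_⟩
    refine Prod.ext rfl ?_
    ext1 i
    exact ι_zero
  have h1 : ∀ i : Fin m, ((0, Pi.single i 1) : V m) ∈ span F4 (vec m '' ground m) := by
    intro i
    refine subset_span ⟨(0, Pi.single i 1), Or.inl ?_, ?_⟩
    · intro h
      have := congrFun h i
      simp at this
    · refine Prod.ext rfl ?_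
      ext1 j
      change ι ((Pi.single i 1 : Fin m → ZMod 2) j) = (Pi.single i 1 : Fin m → F4) j
      by_cases hij : j = i
      · subst hij
        rw [Pi.single_eq_same, Pi.single_eq_same]
        rfl
      · rw [Pi.single_eq_of_ne hij, Pi.single_eq_of_ne hij]
        rfl
  have hx : x = x.1 • e0 m + ∑ i, x.2 i • ((0, Pi.single i 1) : V m) := by
    refine Prod.ext ?_ ?_
    · rw [Prod.fst_add, Prod.fst_sum]
      simp [e0]
    · rw [Prod.snd_add, Prod.snd_sum]
      ext1 j
      simp [e0, Finset.sum_apply, Pi.single_apply]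
  rw [hx]
  exact add_mem (smul_mem _ _ h0) (sum_mem fun i _ => smul_mem _ _ (h1 i))

theorem G_rank : (G m).eRank = ((m + 1 : ℕ) : ℕ∞) := by
  have h1 : rk (G m) (G m).E = m + 1 := by
    rw [(G_rep m).rk_eq Subset.rfl]
    change finrank F4 (span F4 (vec m '' ground m)) = m + 1
    rw [span_top, finrank_top, Module.finrank_prod, Module.finrank_fin_fun, Module.finrank_self,
      add_comm]
  rw [← Matroid.eRk_ground, ← h1, rk, ENat.natCast_toNat]
  have h2 : (G m).eRk (G m).E ≤ (G m).E.encard := (G m).eRk_le_encard _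
  have h3 : (G m).E.encard < ⊤ := (G m).ground_finite.encard_lt_top
  exact (lt_of_le_of_lt h2 h3).ne

theorem card_F4 : Nat.card F4 = 4 := by
  rw [Nat.card_congr F4.equiv.symm, Nat.card_prod, Nat.card_zmod]

theorem G_card : ((2 ^ (m + 2) - 3 : ℕ) : ℕ∞) ≤ (G m).E.encard := by
  change _ ≤ (ground m).encard
  rw [← (toFinite (ground m)).cast_ncard_eq, Nat.cast_le]
  have h1 := ncard_add_ncard_compl (ground m)
  have h2 : Nat.card (F4 × (Fin m → ZMod 2)) = 2 ^ (m + 2) := by
    rw [Nat.card_prod, card_F4, Nat.card_fun, Nat.card_zmod, Nat.card_fin]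
    ring
  have h3 : (ground m)ᶜ ⊆ (fun x => (x, 0)) '' ({1}ᶜ : Set F4) := by
    rintro ⟨x, y⟩ hxy
    rw [ground, mem_compl_iff, mem_union, not_or] at hxy
    have hy : y = 0 := by
      by_contra hy
      exact hxy.1 hy
    subst hy
    refine ⟨x, ?_, rfl⟩
    intro hx
    rw [mem_singleton_iff] at hx
    subst hx
    exact hxy.2 rfl
  have h4 : (ground m)ᶜ.ncard ≤ 3 := by
    refine (ncard_le_ncard h3 (toFinite _)).trans ?_
    refine (ncard_image_le (toFinite _)).trans ?_
    have h5 := ncard_add_ncard_compl ({1} : Set F4)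
    rw [card_F4, ncard_singleton] at h5
    omega
  rw [h2] at h1
  omega

end Dense

/-- **Every `q ≥ 4` gives a counterexample.** -/
theorem result (q : ℕ) (hq : 4 ≤ q) : ∃ S : Set (Σ β : Type, Matroid β),
    (∀ A ∈ S, A.2.Finite ∧ InU q A.2) ∧
    ∃ r : ℕ, IsPrimePow r ∧ r ≤ q ∧ (∀ A ∈ S, ¬ InL r A.2) ∧
      (∀ r' : ℕ, IsPrimePow r' → r' ≤ q → (∀ A ∈ S, ¬ InL r' A.2) → r' ≤ r) ∧
      ∀ n : ℕ, 2 ≤ n → (((r ^ n - 1) / (r - 1) : ℕ) : ℕ∞) < size S q n := by
  refine ⟨{⟨Fin 2 × Fin 4, T⟩}, ?_, 2, ?_, by omega, ?_, ?_, ?_⟩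
  · rintro A hA
    rw [mem_singleton_iff] at hA
    subst hA
    exact ⟨⟨toFinite _⟩, T_inU hq⟩
  · exact (isPrimePow_nat_iff 2).2 ⟨2, 1, by norm_num, by norm_num, by norm_num⟩
  · rintro A hA
    rw [mem_singleton_iff] at hA
    subst hA
    exact T_not_binary
  · intro r' hr' hr'q h
    by_contra hlt
    exact h ⟨Fin 2 × Fin 4, T⟩ rfl (T_inL hr' (by omega))
  · intro n hn
    obtain ⟨m, rfl⟩ : ∃ m, n = m + 1 := ⟨n - 1, by omega⟩
    have hclass : InClass {⟨Fin 2 × Fin 4, T⟩} q (G m) := by
      refine ⟨G_finite m, inU_of_rep (G_rep m) (by rw [card_F4]; exact hq), ?_⟩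
      intro A hA N hN
      rw [mem_singleton_iff] at hA
      subst hA
      exact no_T N hN
    have h1 : numPoints (G m) ≤ size {⟨Fin 2 × Fin 4, T⟩} q (m + 1) := by
      unfold size
      refine le_iSup_of_le (F4 × (Fin m → ZMod 2)) ?_
      refine le_iSup_of_le (G m) ?_
      exact le_iSup_of_le ⟨hclass, G_rank m⟩ le_rfl
    refine lt_of_lt_of_le ?_ ((G_card m).trans ((encard_le_numPoints _ (G_simple m)).trans h1))
    rw [Nat.cast_lt]
    have h2 : (2 : ℕ) ^ (m + 2) = 2 * 2 ^ (m + 1) := by ring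
    have h3 : (2 : ℕ) ^ (m + 1) = 2 * 2 ^ m := by ring
    have h4 : 2 ≤ 2 ^ m := by
      calc 2 = 2 ^ 1 := rfl
        _ ≤ 2 ^ m := Nat.pow_le_pow_right (by norm_num) (by omega)
    norm_num
    omega

end Pool.Agent.Results.MP_f02e69_co.Projections
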